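import Pool.Agent.R482.ST.Dens

/-!
# Sets of integers which are thin in all residue classes, in long windows of residue classes near powers

Let `P` have at most `x / (q (log x) ^ A)` members up to `x` in the class `a` modulo `q`, for all `q ≤ x ^ (c - ρ)` and
`gcd (a, q) ≤ (log x) ^ T` (`ClassThin c P`). Let `q n ≤ b ^ (c v_n)` be arbitrary moduli and `cls n` sets of at most
`v_n ^ T` classes modulo `q n`, with `gcd (a, q n) ≤ v_n ^ T`. Then for almost all `x > b` and all large `n` no integer `m`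
of these classes with `|m - x ^ (v_n)| ≤ q n * (v n) ^ A` belongs to `P`.
-/

set_option autoImplicit false

open Filter Topology MeasureTheory
open Pool.Agent.R482.ST

namespace Pool.Agent.Zk95.TR

/-- `P` is thinner than every power of the logarithm in the residue classes to all moduli up to `x ^ (c - ρ)` -/
def ClassThin (c : ℝ) (P : ℕ → Prop) : Prop :=
  ∀ ρ : ℝ, 0 < ρ → ∀ A T : ℕ, ∃ x₀ : ℝ, ∀ x : ℝ, x₀ ≤ x → ∀ q : ℕ, 1 ≤ q → (q : ℝ) ≤ x ^ (c - ρ) →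
    ∀ a : ℤ, (Int.gcd a q : ℝ) ≤ Real.log x ^ T →
      {m : ℕ | 0 < m ∧ (m : ℝ) ≤ x ∧ (m : ℤ) ≡ a [ZMOD q] ∧ P m}.Finite ∧
      ({m : ℕ | 0 < m ∧ (m : ℝ) ≤ x ∧ (m : ℤ) ≡ a [ZMOD q] ∧ P m}.ncard : ℝ) ≤ x / (q * Real.log x ^ A)

lemma finite_le (S : Set ℕ) (X : ℝ) : {m : ℕ | m ∈ S ∧ (m : ℝ) ≤ X}.Finite := by
  refine (Set.finite_Iic ⌊X⌋₊).subset ?_
  rintro m ⟨-, hm⟩
  exact Nat.le_floor hm

theorem one_window (P : ℕ → Prop) {c : ℝ} (hc0 : 0 < c) (hc1 : c < 1) (hP : ClassThin c P)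
    {v : ℕ → ℝ} (hv : ∀ n, 1 ≤ v n) {t : ℝ} (hvt : Summable fun n => (v n) ^ (-t)) (ht : 0 < t)
    {b : ℝ} (hb : 1 ≤ b) (q : ℕ → ℕ) (hq : ∀ n, 1 ≤ q n) (hqb : ∀ n, (q n : ℝ) ≤ b ^ (c * v n))
    (cls : ℕ → Finset ℤ) (T : ℕ) (hcard : ∀ n, ((cls n).card : ℝ) ≤ (v n) ^ T)
    (hgcd : ∀ n, ∀ a ∈ cls n, (Int.gcd a (q n) : ℝ) ≤ (v n) ^ T) (A : ℕ) {lo : ℝ} (hlo : b < lo) :
    ∃ N : Set ℝ, volume N = 0 ∧ ∀ x : ℝ, lo < x → x ∉ N → ∀ M : ℕ, ∃ n₀ : ℕ, ∀ n : ℕ, n₀ ≤ n →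
      ∀ a ∈ cls n, ∀ m : ℕ, (m : ℤ) ≡ a [ZMOD q n] → |(m : ℝ) - x ^ (v n)| ≤ q n * (v n) ^ A → M ≤ m ∧ ¬ P m := by
  classical
  have hlo1 : 1 < lo := lt_of_le_of_lt hb hlo
  have hlo0 : 0 < lo := by linarith
  have hb0 : 0 < b := by linarith
  have hv0 : ∀ n, 0 < v n := fun n => lt_of_lt_of_le one_pos (hv n)
  have hlb : 0 ≤ Real.log b := Real.log_nonneg hb
  have hll : 0 < Real.log lo := Real.log_pos hlo1
  have hlt : Real.log b < Real.log lo := Real.log_lt_log hb0 hlo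
  have hvinf : Tendsto v atTop atTop := by
    rw [tendsto_atTop]
    intro M
    exact large hv0 ht hvt M
  obtain ⟨ρ, hρdef⟩ : ∃ ρ : ℝ, ρ = c * (Real.log lo - Real.log b) / (2 * Real.log lo) := ⟨_, rfl⟩
  have hρ : 0 < ρ := by
    rw [hρdef]
    have : 0 < Real.log lo - Real.log b := by linarith
    positivity
  have hρ2 : (c - ρ) * Real.log lo = c * (Real.log lo + Real.log b) / 2 := by
    rw [hρdef]
    field_simp
    ring
  have hcρ : 0 < c - ρ := by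
    have h1 : 0 < (c - ρ) * Real.log lo := by rw [hρ2]; positivity
    by_contra hcon
    push Not at hcon
    have := mul_nonpos_of_nonpos_of_nonneg hcon hll.le
    linarith
  obtain ⟨B, hB⟩ := exists_nat_ge (t + A + 1 + T)
  obtain ⟨x₀, hx₀⟩ := hP ρ hρ B (T + 1)
  -- eventually: the lower end is large
  have hpowinf : Tendsto (fun n => lo ^ (v n) / 2) atTop atTop := by
    have h1 : Tendsto (fun n => Real.log lo * v n) atTop atTop := hvinf.const_mul_atTop hll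
    have h2 := Real.tendsto_exp_atTop.comp h1
    refine (h2.congr fun n => ?_).atTop_div_const (by norm_num)
    rw [Function.comp, ← Real.rpow_def_of_pos hlo0]
  have ev1 := hpowinf.eventually (eventually_ge_atTop (max x₀ 1))
  -- eventually: log (lo ^ v / 2) ≥ v log lo / 2
  have ev2 := hvinf.eventually (eventually_ge_atTop (2 * Real.log 2 / Real.log lo))
  -- eventually: q ≤ (lo ^ v / 2) ^ (c - ρ)
  have ev3 := hvinf.eventually (eventually_ge_atTop (2 * Real.log 2 / (Real.log lo - Real.log b)))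
  -- eventually: v ^ T ≤ (v log lo / 2) ^ (T + 1)
  have ev4 := hvinf.eventually (eventually_ge_atTop ((2 / Real.log lo) ^ (T + 1)))
  -- eventually: 2 q v ^ A ≤ lo ^ v
  have ev5 : ∀ᶠ n in atTop, 2 * ((q n : ℝ) * (v n) ^ A) ≤ lo ^ (v n) := by
    have hpos : 0 < (1 - c) * Real.log lo := mul_pos (by linarith) hll
    have h1 : Tendsto (fun y : ℝ => Real.exp ((1 - c) * Real.log lo * y) / y ^ A) atTop atTop := by
      have h2 := tendsto_exp_mul_div_rpow_atTop (A : ℝ) ((1 - c) * Real.log lo) hpos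
      refine h2.congr fun y => ?_
      rw [Real.rpow_natCast]
    filter_upwards [(h1.comp hvinf).eventually (eventually_ge_atTop 2)] with n hn
    have h4 : 2 ≤ Real.exp ((1 - c) * Real.log lo * v n) / (v n) ^ A := hn
    have hvA : 0 < (v n) ^ A := pow_pos (hv0 n) A
    rw [le_div_iff₀ hvA] at h4
    have h5 : (q n : ℝ) ≤ lo ^ (c * v n) :=
      (hqb n).trans (Real.rpow_le_rpow hb0.le hlo.le (mul_nonneg hc0.le (hv0 n).le))
    calc 2 * ((q n : ℝ) * (v n) ^ A) = (q n : ℝ) * (2 * (v n) ^ A) := by ring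
      _ ≤ lo ^ (c * v n) * Real.exp ((1 - c) * Real.log lo * v n) := by
          apply mul_le_mul h5 h4 (by positivity) (by positivity)
      _ = lo ^ (v n) := by
          rw [Real.rpow_def_of_pos hlo0, Real.rpow_def_of_pos hlo0, ← Real.exp_add]
          congr 1
          ring
  obtain ⟨n₁, hn₁⟩ := eventually_atTop.1 (ev1.and (ev2.and (ev3.and (ev4.and ev5))))
  let S : ℕ → Set ℕ := fun n => {m : ℕ | n₁ ≤ n ∧ (∃ a ∈ cls n, (m : ℤ) ≡ a [ZMOD q n]) ∧ P m ∧ lo ^ (v n) / 2 ≤ m}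
  let K : ℝ := (Real.log lo / 2) ^ (-(B : ℝ))
  have hK : 0 ≤ K := Real.rpow_nonneg (by positivity) _
  have hStar : Star lo (fun n x => x ^ (v n)) := fun n x y hx hxy => star_pow hv n x y (by linarith) hxy
  suffices key : ∃ N : Set ℝ, volume N = 0 ∧ ∀ x : ℝ, lo < x → x ∉ N → ∃ n₀ : ℕ, ∀ n : ℕ, n₀ ≤ n →
      ∀ m ∈ S n, (q n : ℝ) * (v n) ^ A < |(m : ℝ) - x ^ (v n)| by
    obtain ⟨N, hN, hN2⟩ := key
    refine ⟨N, hN, fun x hx hxN M => ?_⟩
    obtain ⟨n₀, h0⟩ := hN2 x hx hxN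
    obtain ⟨n₂, hn₂⟩ := eventually_atTop.1 (hpowinf.eventually (eventually_ge_atTop (M : ℝ)))
    refine ⟨max (max n₀ n₂) n₁, fun n hn a ha m hm hmx => ?_⟩
    obtain ⟨-, -, -, -, e5⟩ := hn₁ n ((le_max_right _ _).trans hn)
    have hM := hn₂ n ((le_max_right _ _).trans ((le_max_left _ _).trans hn))
    have hxm : lo ^ (v n) ≤ x ^ (v n) := Real.rpow_le_rpow hlo0.le hx.le (hv0 n).le
    have hpos : 0 < lo ^ (v n) := Real.rpow_pos_of_pos hlo0 _
    have h1 := (abs_le.1 hmx).1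
    have hlow : lo ^ (v n) / 2 ≤ m := by linarith
    refine ⟨?_, fun hPm => ?_⟩
    · have : (M : ℝ) ≤ m := by linarith
      exact_mod_cast this
    · have h2 := h0 n ((le_max_left _ _).trans ((le_max_left _ _).trans hn)) m ⟨(le_max_right _ _).trans hn, ⟨a, ha, hm⟩, hPm, hlow⟩
      exact absurd hmx (not_le.2 h2)
  refine star_ae S (fun m : ℕ => (m : ℝ)) (f := fun n x => x ^ (v n)) (a := lo) hlo0.le hStar
    (fun x hx => ⟨1, one_pos, fun n => Real.one_le_rpow (by linarith) (hv0 n).le⟩)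
    (C := fun n => (v n) ^ T * (K * (v n) ^ (-(B : ℝ)) / q n)) (L := fun n => (q n : ℝ) * (v n) ^ A)
    (fun n => by have := hv0 n; positivity) (fun n => by have := hv0 n; positivity) ?_ ?_ ?_
  · intro x hx
    filter_upwards [eventually_ge_atTop n₁] with n hn
    obtain ⟨-, -, -, -, e5⟩ := hn₁ n hn
    have hxm : lo ^ (v n) ≤ x ^ (v n) := Real.rpow_le_rpow hlo0.le hx.le (hv0 n).le
    have : 0 ≤ (q n : ℝ) * (v n) ^ A := by have := hv0 n; positivity
    linarith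
  · intro x y hx hxy
    have hxp : 0 < x := by linarith
    have hyp : 0 < y := by linarith
    have hly : 0 ≤ Real.log (y / x) := Real.log_nonneg (by rw [le_div_iff₀ hxp]; linarith)
    refine Summable.of_nonneg_of_le (fun n => ?_) (fun n => ?_) (hvt.mul_left (K * (1 + Real.log (y / x))))
    all_goals
      have hvn : 1 ≤ v n := hv n
      have hvn0 : 0 < v n := hv0 n
      have hqn : (0 : ℝ) < q n := by exact_mod_cast hq n
      have e : Real.log (y ^ (v n) / x ^ (v n)) = v n * Real.log (y / x) := by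
        rw [← Real.div_rpow hyp.le hxp.le, Real.log_rpow (by positivity)]
      rw [e]
    · positivity
    · have e7 : 1 + v n * Real.log (y / x) ≤ v n * (1 + Real.log (y / x)) := by nlinarith
      have e8 : (v n) ^ T * (v n) ^ (-(B : ℝ)) * (v n) ^ A * v n ≤ (v n) ^ (-t) := by
        rw [← Real.rpow_natCast (v n) A, ← Real.rpow_natCast (v n) T, ← Real.rpow_add hvn0, ← Real.rpow_add hvn0]
        nth_rewrite 2 [← Real.rpow_one (v n)]
        rw [← Real.rpow_add hvn0]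
        apply Real.rpow_le_rpow_of_exponent_le hvn
        linarith
      calc (v n) ^ T * (K * (v n) ^ (-(B : ℝ)) / q n) * (q n * (v n) ^ A) * (1 + v n * Real.log (y / x))
          = (v n) ^ T * (K * (v n) ^ (-(B : ℝ))) * (v n) ^ A * (1 + v n * Real.log (y / x)) := by
            field_simp
        _ ≤ (v n) ^ T * (K * (v n) ^ (-(B : ℝ))) * (v n) ^ A * (v n * (1 + Real.log (y / x))) := by
            gcongr
        _ = K * (1 + Real.log (y / x)) * ((v n) ^ T * (v n) ^ (-(B : ℝ)) * (v n) ^ A * v n) := by ring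
        _ ≤ K * (1 + Real.log (y / x)) * (v n) ^ (-t) := by gcongr
  · intro n X hX
    refine ⟨finite_le _ X, ?_⟩
    have hvn0 : 0 < v n := hv0 n
    have hqn : (0 : ℝ) < q n := by exact_mod_cast hq n
    by_cases hn : n₁ ≤ n
    swap
    · have he : {m : ℕ | m ∈ S n ∧ (m : ℝ) ≤ X} = ∅ := by
        rw [Set.eq_empty_iff_forall_notMem]
        rintro m ⟨⟨h1, -⟩, -⟩
        exact hn h1
      rw [he, Set.ncard_empty, Nat.cast_zero]
      positivity
    obtain ⟨e1, e2, e3, e4, -⟩ := hn₁ n hn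
    rcases lt_or_ge X (lo ^ (v n) / 2) with hlt | hge
    · have he : {m : ℕ | m ∈ S n ∧ (m : ℝ) ≤ X} = ∅ := by
        rw [Set.eq_empty_iff_forall_notMem]
        rintro m ⟨⟨-, -, -, h1⟩, h2⟩
        linarith
      rw [he, Set.ncard_empty, Nat.cast_zero]
      positivity
    -- logarithms
    have hX0 : 0 < X := by linarith
    have hpp : 0 < lo ^ (v n) := Real.rpow_pos_of_pos hlo0 _
    have hlogX : v n * Real.log lo / 2 ≤ Real.log X := by
      have h1 : Real.log (lo ^ (v n) / 2) ≤ Real.log X := Real.log_le_log (by positivity) hge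
      rw [Real.log_div hpp.ne' (by norm_num), Real.log_rpow hlo0] at h1
      rw [div_le_iff₀ hll] at e2
      linarith
    have hlogX0 : 0 < v n * Real.log lo / 2 := by positivity
    have hqX : (q n : ℝ) ≤ X ^ (c - ρ) := by
      have h1 : (lo ^ (v n) / 2) ^ (c - ρ) ≤ X ^ (c - ρ) := Real.rpow_le_rpow (by positivity) hge hcρ.le
      refine ((hqb n).trans ?_).trans h1
      rw [Real.rpow_def_of_pos hb0, Real.rpow_def_of_pos (by positivity : 0 < lo ^ (v n) / 2),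
        Real.log_div hpp.ne' (by norm_num), Real.log_rpow hlo0]
      apply Real.exp_le_exp.2
      rw [div_le_iff₀ (by linarith)] at e3
      have h2 : (v n * Real.log lo - Real.log 2) * (c - ρ) =
          v n * ((c - ρ) * Real.log lo) - (c - ρ) * Real.log 2 := by ring
      rw [h2, hρ2]
      have h3 : (c - ρ) * Real.log 2 ≤ c * Real.log 2 := by
        apply mul_le_mul_of_nonneg_right (by linarith) (Real.log_nonneg (by norm_num))
      nlinarith
    have hgX : ∀ a ∈ cls n, (Int.gcd a (q n) : ℝ) ≤ Real.log X ^ (T + 1) := by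
      intro a ha
      refine (hgcd n a ha).trans (le_trans ?_ (pow_le_pow_left₀ hlogX0.le hlogX (T + 1)))
      have h1 : (v n * Real.log lo / 2) ^ (T + 1) = (v n) ^ T * (v n * (Real.log lo / 2) ^ (T + 1)) := by
        rw [mul_div_assoc, mul_pow]
        ring
      rw [h1]
      apply le_mul_of_one_le_right (by positivity)
      have h2 : (2 / Real.log lo) ^ (T + 1) * (Real.log lo / 2) ^ (T + 1) = 1 := by
        rw [← mul_pow, div_mul_div_comm, mul_comm 2, div_self (by positivity), one_pow]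
      rw [← h2]
      apply mul_le_mul_of_nonneg_right e4 (by positivity)
    -- one class
    have hcl : ∀ a ∈ cls n, ({m : ℕ | 0 < m ∧ (m : ℝ) ≤ X ∧ (m : ℤ) ≡ a [ZMOD q n] ∧ P m}.ncard : ℝ) ≤
        K * (v n) ^ (-(B : ℝ)) / q n * X := by
      intro a ha
      obtain ⟨-, h1⟩ := hx₀ X ((le_max_left _ _).trans (le_trans e1 hge)) (q n) (hq n) hqX a (hgX a ha)
      refine h1.trans ?_
      have h2 : (v n * Real.log lo / 2) ^ B ≤ Real.log X ^ B := pow_le_pow_left₀ hlogX0.le hlogX B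
      have h3 : K * (v n) ^ (-(B : ℝ)) = 1 / (v n * Real.log lo / 2) ^ B := by
        show (Real.log lo / 2) ^ (-(B : ℝ)) * (v n) ^ (-(B : ℝ)) = _
        rw [← Real.mul_rpow (by positivity) hvn0.le, Real.rpow_neg (by positivity), Real.rpow_natCast, one_div]
        congr 2
        ring
      rw [h3]
      have h4 : 0 < (v n * Real.log lo / 2) ^ B := pow_pos hlogX0 B
      calc X / (q n * Real.log X ^ B) ≤ X / (q n * (v n * Real.log lo / 2) ^ B) := by gcongr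
        _ = 1 / (v n * Real.log lo / 2) ^ B / q n * X := by field_simp
    have hsub : {m : ℕ | m ∈ S n ∧ (m : ℝ) ≤ X} ⊆
        ⋃ a ∈ cls n, {m : ℕ | 0 < m ∧ (m : ℝ) ≤ X ∧ (m : ℤ) ≡ a [ZMOD q n] ∧ P m} := by
      rintro m ⟨⟨-, ⟨a, ha, h1⟩, h2, h3⟩, h4⟩
      simp only [Set.mem_iUnion]
      refine ⟨a, ha, ?_, h4, h1, h2⟩
      have : (0 : ℝ) < m := by linarith
      exact_mod_cast this
    have hfin : ∀ a ∈ cls n, {m : ℕ | 0 < m ∧ (m : ℝ) ≤ X ∧ (m : ℤ) ≡ a [ZMOD q n] ∧ P m}.Finite := by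
      intro a _
      exact (finite_le Set.univ X).subset fun m hm => ⟨trivial, hm.2.1⟩
    have hun : (⋃ a ∈ cls n, {m : ℕ | 0 < m ∧ (m : ℝ) ≤ X ∧ (m : ℤ) ≡ a [ZMOD q n] ∧ P m}).Finite :=
      Set.Finite.biUnion (Finset.finite_toSet _) hfin
    have hcount : ((⋃ a ∈ cls n, {m : ℕ | 0 < m ∧ (m : ℝ) ≤ X ∧ (m : ℤ) ≡ a [ZMOD q n] ∧ P m}).ncard : ℝ) ≤
        ∑ a ∈ cls n, ({m : ℕ | 0 < m ∧ (m : ℝ) ≤ X ∧ (m : ℤ) ≡ a [ZMOD q n] ∧ P m}.ncard : ℝ) := by
      exact_mod_cast Finset.set_ncard_biUnion_le (cls n) _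
    calc ({m : ℕ | m ∈ S n ∧ (m : ℝ) ≤ X}.ncard : ℝ)
        ≤ ((⋃ a ∈ cls n, {m : ℕ | 0 < m ∧ (m : ℝ) ≤ X ∧ (m : ℤ) ≡ a [ZMOD q n] ∧ P m}).ncard : ℝ) := by
          exact_mod_cast Set.ncard_le_ncard hsub hun
      _ ≤ _ := hcount
      _ ≤ ∑ _a ∈ cls n, K * (v n) ^ (-(B : ℝ)) / q n * X := Finset.sum_le_sum hcl
      _ = ((cls n).card : ℝ) * (K * (v n) ^ (-(B : ℝ)) / q n * X) := by rw [Finset.sum_const, nsmul_eq_mul]
      _ ≤ (v n) ^ T * (K * (v n) ^ (-(B : ℝ)) / q n * X) := by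
          apply mul_le_mul_of_nonneg_right (hcard n) (by positivity)
      _ = (v n) ^ T * (K * (v n) ^ (-(B : ℝ)) / q n) * X := by ring

/-- **Long windows of residue classes near powers.** -/
theorem class_windows {I : Type} [Countable I] (P : I → ℕ → Prop) {c : ℝ} (hc0 : 0 < c) (hc1 : c < 1)
    (hP : ∀ i, ClassThin c (P i))
    {v : ℕ → ℝ} (hv : ∀ n, 1 ≤ v n) {t : ℝ} (hvt : Summable fun n => (v n) ^ (-t))
    {b : ℝ} (hb : 1 ≤ b) (q : ℕ → ℕ) (hq : ∀ n, 1 ≤ q n) (hqb : ∀ n, (q n : ℝ) ≤ b ^ (c * v n))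
    (cls : ℕ → Finset ℤ) (T : ℕ) (hcard : ∀ n, ((cls n).card : ℝ) ≤ (v n) ^ T)
    (hgcd : ∀ n, ∀ a ∈ cls n, (Int.gcd a (q n) : ℝ) ≤ (v n) ^ T) :
    ∃ N : Set ℝ, volume N = 0 ∧ ∀ x : ℝ, b < x → x ∉ N → ∀ i, ∀ A M : ℕ, ∃ n₀ : ℕ, ∀ n : ℕ, n₀ ≤ n →
      ∀ a ∈ cls n, ∀ m : ℕ, (m : ℤ) ≡ a [ZMOD q n] → |(m : ℝ) - x ^ (v n)| ≤ q n * (v n) ^ A → M ≤ m ∧ ¬ P i m := by
  have hvt' : Summable fun n => (v n) ^ (-(|t| + 1)) := by
    refine Summable.of_nonneg_of_le (fun n => Real.rpow_nonneg (by linarith [hv n]) _) (fun n => ?_) hvt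
    exact Real.rpow_le_rpow_of_exponent_le (hv n) (by linarith [le_abs_self t])
  have hone : ∀ p : I × ℕ × ℕ, ∃ N : Set ℝ, volume N = 0 ∧ ∀ x : ℝ, b + 1 / ((p.2.2 : ℝ) + 1) < x → x ∉ N →
      ∀ M : ℕ, ∃ n₀ : ℕ, ∀ n : ℕ, n₀ ≤ n → ∀ a ∈ cls n, ∀ m : ℕ, (m : ℤ) ≡ a [ZMOD q n] →
        |(m : ℝ) - x ^ (v n)| ≤ q n * (v n) ^ p.2.1 → M ≤ m ∧ ¬ P p.1 m := by
    rintro ⟨i, A, k⟩
    exact one_window (P i) hc0 hc1 (hP i) hv hvt' (by positivity) hb q hq hqb cls T hcard hgcd A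
      (lo := b + 1 / ((k : ℝ) + 1)) (by linarith [show (0 : ℝ) < 1 / ((k : ℝ) + 1) by positivity])
  choose N hN1 hN2 using hone
  refine ⟨⋃ p, N p, measure_iUnion_null hN1, fun x hx hxN i A M => ?_⟩
  obtain ⟨k, hk⟩ := exists_nat_one_div_lt (show 0 < x - b by linarith)
  exact hN2 (i, A, k) x (by simp only; linarith) (fun h => hxN (Set.mem_iUnion.2 ⟨_, h⟩)) M

end Pool.Agent.Zk95.TR
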